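import Pool.Agent.H856R3.GcolUpper

/-!
# How large the numbers `gcol_{k,l}` are in classes with polynomial strong colouring numbers

The starting result `BoundedHops` of this problem shows that a function `k` has property (P) if and
only if it is bounded. Here the size of `gcol_{k,l}` itself is determined:

* for every graph `gcol_{k,l} ≤ (col_l) ^ k`;
* for all `1 ≤ k ≤ l` there is a graph with `col_m ≤ m * min m k + 4 m + 2` for **all** `m` (so
  quadratic strong colouring numbers uniformly in `k`, and linear ones, at most `(k + 6) m`, for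
  fixed `k`) and `gcol_{k',l} ≥ ⌊l / k⌋ ^ k` for all `k' ≥ k`;
* hence for fixed `k` the largest order of magnitude of `gcol_{k,l}` under linear strong colouring
  numbers is exactly `l ^ k`;
* for `k(l) ≤ l ^ (1 - δ)` and an arbitrary scale `g`: all classes with polynomial strong colouring
  numbers have `gcol_{k(l),l} ≤ g(l) ^ O(1)` if and only if `k(l) log l = O(log g(l))`;
* for all `k(l) ≤ l` this condition is sufficient, and `h log ⌊l / h⌋ = O(log g(l))`, uniformly for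
  `1 ≤ h ≤ k(l)`, is necessary (so `g` has to be exponential when `k(l) ≥ l / 3`);
* property (P) itself holds if and only if `k` is bounded.
-/

namespace Pool.Agent.Results.MP_7edec4_co.GrowthScale

open Pool.Agent.H856R3

/-- Property (P) with the polynomial in the conclusion replaced by a power of the function `g`:
every class with polynomial strong colouring numbers admits an exponent `c` with
`gcol_{k(l),l}(G) ≤ g(l) ^ c` for all graphs `G` of the class and all `l ≥ 2`. -/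
def PropertyPWith (g : ℕ → ℝ) (k : ℕ → ℕ) : Prop :=
  ∀ C : GraphClass, PolynomialCol C →
    ∃ c : ℕ, ∀ (V : Type) [Fintype V] (G : SimpleGraph V), C V G →
      ∀ l : ℕ, 2 ≤ l → (gcol (k l) l G : ℝ) ≤ g l ^ c

/-- the graphs of the construction, with the sharper bound for the strong colouring numbers -/
theorem exists_graph' (h R : ℕ) (hh : 1 ≤ h) (hR : 1 ≤ R) :
    ∃ (V : Type) (_ : Fintype V) (G : SimpleGraph V),
      (∀ l, 1 ≤ l → col l G ≤ l * min l h + 4 * l + 2) ∧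
      (∀ k l, h ≤ k → h * R ≤ l → R ^ h ≤ gcol k l G) := by
  let Y : Lev R (R ^ h) h := levAll hR h
  have := Y.fin
  have : Fintype Y.V := Fintype.ofFinite Y.V
  refine ⟨Y.V, inferInstance, Y.G, ?_, ?_⟩
  · intro l hl
    refine Nat.sInf_le ⟨Y.σ, fun v => ?_⟩
    refine (Set.ncard_le_ncard (GReach_one_subset Y.σ Y.G l v) (Set.toFinite _)).trans ?_
    refine (Y.ub v l hl).trans ?_
    have : l * min l (h - Y.lev v) ≤ l * min l h :=
      Nat.mul_le_mul_left l (min_le_min_left l (Nat.sub_le _ _))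
    omega
  · intro k l hk hl
    refine le_csInf (gcol_nonempty k l Y.G) ?_
    rintro m ⟨τ, hm⟩
    have hRl : 1 * R ≤ h * R := Nat.mul_le_mul_right R hh
    rcases Y.lb τ with ⟨v, hv⟩ | ⟨v, _, hv⟩
    · refine (hv.trans ?_).trans (hm v)
      refine Set.ncard_le_ncard (GReach_mono (hh.trans hk) ?_) (Set.toFinite _)
      omega
    · refine (hv.trans ?_).trans (hm v)
      exact Set.ncard_le_ncard (GReach_mono hk hl) (Set.toFinite _)

/-- lower bound for all `1 ≤ k ≤ l` -/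
theorem lower (k l : ℕ) (hk : 1 ≤ k) (hkl : k ≤ l) :
    ∃ (V : Type) (_ : Fintype V) (G : SimpleGraph V),
      (∀ m, 1 ≤ m → col m G ≤ m * min m k + 4 * m + 2) ∧
      ∀ k', k ≤ k' → (l / k) ^ k ≤ gcol k' l G := by
  have hR : 1 ≤ l / k := (Nat.one_le_div_iff (by omega)).2 hkl
  obtain ⟨V, iV, G, h1, h2⟩ := exists_graph' k (l / k) hk hR
  exact ⟨V, iV, G, h1, fun k' hk' => h2 k' l hk' (Nat.mul_div_le l k)⟩

/-- the class of all graphs with `col_m ≤ m * m + 4 m + 2` for all `m` -/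
def quadClass : GraphClass := fun _ _ G => ∀ m, 1 ≤ m → col m G ≤ m * m + 4 * m + 2

lemma quadClass_poly : PolynomialCol quadClass := by
  refine ⟨Polynomial.X * Polynomial.X + 4 * Polynomial.X + 2, ?_⟩
  intro V _ G hG l hl
  have h1 := hG l hl
  have h2 : (col l G : ℝ) ≤ ((l * l + 4 * l + 2 : ℕ) : ℝ) := by exact_mod_cast h1
  refine h2.trans (le_of_eq ?_)
  simp

lemma half_le_div {k l : ℕ} (hk : 1 ≤ k) (hkl : k ≤ l) : (l : ℝ) / (2 * k) ≤ ((l / k : ℕ) : ℝ) := by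
  have hk0 : (0 : ℝ) < k := by exact_mod_cast hk
  rw [div_le_iff₀ (by positivity)]
  have h1 : l < k * (l / k + 1) := Nat.lt_mul_div_succ l (by omega)
  have hR : 1 ≤ l / k := (Nat.one_le_div_iff (by omega)).2 hkl
  have h2 : l ≤ (l / k) * (2 * k) := by nlinarith
  exact_mod_cast h2

/-- the necessity of `k(l) log l = O(log g(l))` -/
theorem necessary (k : ℕ → ℕ) (g : ℕ → ℝ) (δ : ℝ) (hδ : 0 < δ)
    (hk1 : ∀ l, 1 ≤ l → 1 ≤ k l) (hk2 : ∀ l, 1 ≤ l → (k l : ℝ) ≤ (l : ℝ) ^ (1 - δ))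
    (hg : ∀ l, 2 ≤ l → 1 < g l) (hP : PropertyPWith g k) :
    ∃ c : ℝ, ∀ l : ℕ, 2 ≤ l → (k l : ℝ) * Real.log l ≤ c * Real.log (g l) := by
  obtain ⟨c, hc⟩ := hP quadClass quadClass_poly
  obtain ⟨L0, hL0⟩ := exists_nat_gt (Real.exp (2 * Real.log 2 / δ))
  set F : ℕ → ℝ := fun l => |(k l : ℝ) * Real.log l / Real.log (g l)| with hF
  have hFn : ∀ l, 0 ≤ F l := fun l => abs_nonneg _
  refine ⟨2 * c / δ + ∑ l ∈ Finset.range L0, F l, fun l hl => ?_⟩
  have hlg : 0 < Real.log (g l) := Real.log_pos (hg l hl)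
  have hsum : 0 ≤ ∑ l ∈ Finset.range L0, F l := Finset.sum_nonneg fun i _ => hFn i
  by_cases hlL : l < L0
  · have h1 : F l ≤ ∑ l ∈ Finset.range L0, F l :=
      Finset.single_le_sum (fun i _ => hFn i) (Finset.mem_range.2 hlL)
    have h2 : (k l : ℝ) * Real.log l / Real.log (g l) ≤ F l := le_abs_self _
    have h3 : (k l : ℝ) * Real.log l ≤ F l * Real.log (g l) := by
      rwa [div_le_iff₀ hlg] at h2
    have h4 : 0 ≤ 2 * (c : ℝ) / δ := by positivity
    nlinarith [mul_le_mul_of_nonneg_right h1 hlg.le, mul_nonneg h4 hlg.le]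
  · push Not at hlL
    have hl1 : 1 ≤ l := by omega
    have hl0 : (0 : ℝ) < l := by exact_mod_cast (show 0 < l by omega)
    have hl1' : (1 : ℝ) ≤ l := by exact_mod_cast hl1
    have hk0 : (0 : ℝ) < k l := by exact_mod_cast hk1 l hl1
    have hkl : k l ≤ l := by
      have h1 : (l : ℝ) ^ (1 - δ) ≤ (l : ℝ) ^ (1 : ℝ) :=
        Real.rpow_le_rpow_of_exponent_le hl1' (by linarith)
      rw [Real.rpow_one] at h1
      exact_mod_cast (hk2 l hl1).trans h1
    obtain ⟨V, iV, G, hG1, hG2⟩ := lower (k l) l (hk1 l hl1) hkl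
    have hGU : quadClass V G := by
      intro m hm
      refine (hG1 m hm).trans ?_
      have : m * min m (k l) ≤ m * m := Nat.mul_le_mul_left m (min_le_left _ _)
      omega
    have h1 := hc V G hGU l hl
    have h2 : (((l / k l : ℕ) : ℝ)) ^ (k l) ≤ (gcol (k l) l G : ℝ) := by
      exact_mod_cast hG2 (k l) le_rfl
    have h3 : (((l / k l : ℕ) : ℝ)) ^ (k l) ≤ g l ^ c := h2.trans h1
    have hR1 : (1 : ℝ) ≤ ((l / k l : ℕ) : ℝ) := by
      exact_mod_cast (Nat.one_le_div_iff (hk1 l hl1)).2 hkl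
    have h4 : (k l : ℝ) * Real.log ((l / k l : ℕ) : ℝ) ≤ c * Real.log (g l) := by
      have h5 := Real.log_le_log (by positivity) h3
      rwa [Real.log_pow, Real.log_pow] at h5
    -- `l / k l ≥ l ^ δ / 2`
    have h6 : (l : ℝ) ^ δ / 2 ≤ ((l / k l : ℕ) : ℝ) := by
      refine le_trans ?_ (half_le_div (hk1 l hl1) hkl)
      rw [div_le_div_iff₀ (by norm_num) (by positivity)]
      have h7 : (l : ℝ) ^ δ * (k l : ℝ) ≤ l := by
        calc (l : ℝ) ^ δ * (k l : ℝ) ≤ (l : ℝ) ^ δ * (l : ℝ) ^ (1 - δ) :=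
              mul_le_mul_of_nonneg_left (hk2 l hl1) (by positivity)
          _ = l := by
              rw [← Real.rpow_add hl0]
              simp
      nlinarith
    have h8 : δ * Real.log l - Real.log 2 ≤ Real.log ((l / k l : ℕ) : ℝ) := by
      have h9 := Real.log_le_log (by positivity) h6
      rw [Real.log_div (by positivity) (by norm_num), Real.log_rpow hl0] at h9
      exact h9
    have h10 : 2 * Real.log 2 / δ ≤ Real.log l := by
      have h11 : Real.exp (2 * Real.log 2 / δ) ≤ l := by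
        refine hL0.le.trans ?_
        exact_mod_cast hlL
      calc 2 * Real.log 2 / δ = Real.log (Real.exp (2 * Real.log 2 / δ)) := (Real.log_exp _).symm
        _ ≤ Real.log l := Real.log_le_log (Real.exp_pos _) h11
    have h12 : 2 * Real.log 2 ≤ δ * Real.log l := by
      rw [div_le_iff₀ hδ] at h10
      linarith
    have h13 : δ / 2 * Real.log l ≤ Real.log ((l / k l : ℕ) : ℝ) := by linarith
    have h14 : (k l : ℝ) * (δ / 2 * Real.log l) ≤ c * Real.log (g l) :=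
      (mul_le_mul_of_nonneg_left h13 hk0.le).trans h4
    have h15 : (k l : ℝ) * Real.log l ≤ 2 * c / δ * Real.log (g l) := by
      have : (k l : ℝ) * Real.log l = 2 / δ * ((k l : ℝ) * (δ / 2 * Real.log l)) := by
        field_simp
      rw [this]
      calc 2 / δ * ((k l : ℝ) * (δ / 2 * Real.log l)) ≤ 2 / δ * (c * Real.log (g l)) :=
            mul_le_mul_of_nonneg_left h14 (by positivity)
        _ = _ := by ring
    nlinarith [mul_nonneg hsum hlg.le]

/-- a necessary condition for all `k` -/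
theorem necessary' (k : ℕ → ℕ) (g : ℕ → ℝ) (hk : ∀ l, 1 ≤ l → 1 ≤ k l ∧ k l ≤ l)
    (hP : PropertyPWith g k) :
    ∃ c : ℝ, ∀ l : ℕ, 2 ≤ l → ∀ h : ℕ, 1 ≤ h → h ≤ k l →
      (h : ℝ) * Real.log ((l / h : ℕ) : ℝ) ≤ c * Real.log (g l) := by
  obtain ⟨c, hc⟩ := hP quadClass quadClass_poly
  refine ⟨c, fun l hl h hh hhk => ?_⟩
  have hhl : h ≤ l := hhk.trans (hk l (by omega)).2
  obtain ⟨V, iV, G, hG1, hG2⟩ := lower h l hh hhl
  have hGU : quadClass V G := by
    intro m hm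
    refine (hG1 m hm).trans ?_
    have : m * min m h ≤ m * m := Nat.mul_le_mul_left m (min_le_left _ _)
    omega
  have h1 := hc V G hGU l hl
  have h2 : (((l / h : ℕ) : ℝ)) ^ h ≤ (gcol (k l) l G : ℝ) := by
    exact_mod_cast hG2 (k l) hhk
  have hR1 : (1 : ℝ) ≤ ((l / h : ℕ) : ℝ) := by
    exact_mod_cast (Nat.one_le_div_iff hh).2 hhl
  have h5 := Real.log_le_log (by positivity) (h2.trans h1)
  rwa [Real.log_pow, Real.log_pow] at h5

/-- the sufficiency of `k(l) log l = O(log g(l))` -/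
theorem sufficient (k : ℕ → ℕ) (g : ℕ → ℝ) (hg : ∀ l, 2 ≤ l → 1 < g l) (c : ℝ)
    (hc : ∀ l : ℕ, 2 ≤ l → (k l : ℝ) * Real.log l ≤ c * Real.log (g l)) :
    PropertyPWith g k := by
  rintro C ⟨p, hp⟩
  obtain ⟨c1, hc1, hgrow⟩ := poly_growth p
  obtain ⟨n, hn⟩ := pow_unbounded_of_one_lt c1 (show (1 : ℝ) < 2 by norm_num)
  set c0 := p.natDegree + n with hc0
  obtain ⟨e, he⟩ := exists_nat_gt (c0 * c)
  refine ⟨e, ?_⟩
  intro V _ G hG l hl
  have hl2 : (2 : ℝ) ≤ l := by exact_mod_cast hl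
  have hl0 : (0 : ℝ) < l := by linarith
  have hlg : 0 < Real.log (g l) := Real.log_pos (hg l hl)
  have h1 : (col l G : ℝ) ≤ (l : ℝ) ^ c0 := by
    refine (hp V G hG l (by omega)).trans ((hgrow l (by linarith)).trans ?_)
    rw [hc0, pow_add, mul_comm]
    refine mul_le_mul_of_nonneg_left ?_ (by positivity)
    exact hn.le.trans (pow_le_pow_left₀ (by norm_num) hl2 n)
  have h2 : (gcol (k l) l G : ℝ) ≤ (col l G : ℝ) ^ (k l) := by
    exact_mod_cast gcol_le_pow G (k l) (k l) l le_rfl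
  have h3 : (gcol (k l) l G : ℝ) ≤ ((l : ℝ) ^ c0) ^ (k l) :=
    h2.trans (pow_le_pow_left₀ (by positivity) h1 _)
  refine h3.trans ?_
  rw [← Real.log_le_log_iff (by positivity) (pow_pos (by linarith [hg l hl]) _), Real.log_pow,
    Real.log_pow, Real.log_pow]
  have h4 := hc l hl
  calc (k l : ℝ) * (c0 * Real.log l) = c0 * ((k l : ℝ) * Real.log l) := by ring
    _ ≤ c0 * (c * Real.log (g l)) := mul_le_mul_of_nonneg_left h4 (by positivity)
    _ = (c0 * c) * Real.log (g l) := by ring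
    _ ≤ e * Real.log (g l) := mul_le_mul_of_nonneg_right he.le hlg.le

/-- polynomial bounds for a fixed `k` need degree at least `k`, already in a class with linear
strong colouring numbers -/
theorem degree_ge (k : ℕ) (hk : 1 ≤ k) (q : Polynomial ℝ)
    (hq : ∀ (V : Type) [Fintype V] (G : SimpleGraph V),
      (∀ m, 1 ≤ m → col m G ≤ (k + 6) * m) → ∀ l : ℕ, 1 ≤ l → (gcol k l G : ℝ) ≤ q.eval (l : ℝ)) :
    k ≤ q.natDegree := by
  by_contra hlt
  push Not at hlt
  obtain ⟨c, hc, hgrow⟩ := poly_growth q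
  set d := q.natDegree with hd
  obtain ⟨L0, hL0⟩ := exists_nat_gt ((2 * k : ℝ) ^ k * c)
  set l := max k L0 with hl
  have hkl : k ≤ l := le_max_left _ _
  have hl1 : 1 ≤ l := hk.trans hkl
  have hl1' : (1 : ℝ) ≤ l := by exact_mod_cast hl1
  have hk0 : (0 : ℝ) < k := by exact_mod_cast hk
  obtain ⟨V, iV, G, hG1, hG2⟩ := lower k l hk hkl
  have hG3 : ∀ m, 1 ≤ m → col m G ≤ (k + 6) * m := by
    intro m hm
    refine (hG1 m hm).trans ?_
    have h1 : m * min m k ≤ m * k := Nat.mul_le_mul_left m (min_le_right _ _)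
    nlinarith
  have h1 : (((l / k : ℕ) : ℝ)) ^ k ≤ c * (l : ℝ) ^ d := by
    have h2 : (((l / k : ℕ) : ℝ)) ^ k ≤ (gcol k l G : ℝ) := by exact_mod_cast hG2 k le_rfl
    exact (h2.trans (hq V G hG3 l hl1)).trans (hgrow l hl1')
  have h3 : (l : ℝ) ≤ (2 * k) * ((l / k : ℕ) : ℝ) := by
    have := half_le_div hk hkl
    rw [div_le_iff₀ (by positivity)] at this
    linarith
  have h4 : (l : ℝ) ^ k ≤ (2 * k : ℝ) ^ k * (c * (l : ℝ) ^ d) := by
    calc (l : ℝ) ^ k ≤ ((2 * k) * ((l / k : ℕ) : ℝ)) ^ k := pow_le_pow_left₀ (by positivity) h3 _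
      _ = (2 * k : ℝ) ^ k * ((l / k : ℕ) : ℝ) ^ k := mul_pow _ _ _
      _ ≤ _ := mul_le_mul_of_nonneg_left h1 (by positivity)
  have h5 : (l : ℝ) * (l : ℝ) ^ d ≤ ((2 * k : ℝ) ^ k * c) * (l : ℝ) ^ d := by
    calc (l : ℝ) * (l : ℝ) ^ d = (l : ℝ) ^ (d + 1) := by ring
      _ ≤ (l : ℝ) ^ k := pow_le_pow_right₀ hl1' (by omega)
      _ ≤ _ := h4
      _ = _ := by ring
  have h6 : (l : ℝ) ≤ (2 * k : ℝ) ^ k * c := le_of_mul_le_mul_right h5 (by positivity)
  have h7 : (L0 : ℝ) ≤ (l : ℝ) := by exact_mod_cast le_max_right k L0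
  linarith

/-- **The size of `gcol_{k,l}` under polynomial strong colouring numbers.** -/
theorem result :
    -- (1) upper bound, for every graph
    (∀ (V : Type) [Fintype V] (G : SimpleGraph V) (k l : ℕ), gcol k l G ≤ col l G ^ k) ∧
    -- (2) lower bound for all `1 ≤ k ≤ l`
    (∀ k l : ℕ, 1 ≤ k → k ≤ l → ∃ (V : Type) (_ : Fintype V) (G : SimpleGraph V),
      (∀ m, 1 ≤ m → col m G ≤ m * min m k + 4 * m + 2) ∧
      ∀ k', k ≤ k' → (l / k) ^ k ≤ gcol k' l G) ∧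
    -- (3) fixed `k`, linear strong colouring numbers: the exact order is `l ^ k`
    (∀ k : ℕ, 1 ≤ k →
      (∀ (a : ℕ) (V : Type) [Fintype V] (G : SimpleGraph V), (∀ m, 1 ≤ m → col m G ≤ a * m) →
        ∀ l, 1 ≤ l → gcol k l G ≤ a ^ k * l ^ k) ∧
      (∀ l, k ≤ l → ∃ (V : Type) (_ : Fintype V) (G : SimpleGraph V),
        (∀ m, 1 ≤ m → col m G ≤ (k + 6) * m) ∧ (l : ℝ) ^ k / (2 * k) ^ k ≤ gcol k l G) ∧
      (∀ q : Polynomial ℝ, (∀ (V : Type) [Fintype V] (G : SimpleGraph V),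
        (∀ m, 1 ≤ m → col m G ≤ (k + 6) * m) →
          ∀ l : ℕ, 1 ≤ l → (gcol k l G : ℝ) ≤ q.eval (l : ℝ)) → k ≤ q.natDegree)) ∧
    -- (4) the threshold for an arbitrary scale `g`
    (∀ (k : ℕ → ℕ) (g : ℕ → ℝ) (δ : ℝ), 0 < δ → (∀ l, 1 ≤ l → 1 ≤ k l) →
      (∀ l, 1 ≤ l → (k l : ℝ) ≤ (l : ℝ) ^ (1 - δ)) → (∀ l, 2 ≤ l → 1 < g l) →
      (PropertyPWith g k ↔
        ∃ c : ℝ, ∀ l : ℕ, 2 ≤ l → (k l : ℝ) * Real.log l ≤ c * Real.log (g l))) ∧
    -- (4') all `1 ≤ k(l) ≤ l`, arbitrary scale: sufficient and necessary conditions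
    (∀ (k : ℕ → ℕ) (g : ℕ → ℝ), (∀ l, 1 ≤ l → 1 ≤ k l ∧ k l ≤ l) → (∀ l, 2 ≤ l → 1 < g l) →
      ((∃ c : ℝ, ∀ l : ℕ, 2 ≤ l → (k l : ℝ) * Real.log l ≤ c * Real.log (g l)) →
        PropertyPWith g k) ∧
      (PropertyPWith g k → ∃ c : ℝ, ∀ l : ℕ, 2 ≤ l → ∀ h : ℕ, 1 ≤ h → h ≤ k l →
        (h : ℝ) * Real.log ((l / h : ℕ) : ℝ) ≤ c * Real.log (g l))) ∧
    -- (5) property (P) of the question
    (∀ k : ℕ → ℕ, (∀ l, 1 ≤ l → 1 ≤ k l ∧ k l ≤ l) →
      (PropertyP k ↔ ∃ K, ∀ l, 1 ≤ l → k l ≤ K)) := by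
  refine ⟨fun V _ G k l => gcol_le_pow G k k l le_rfl, lower, ?_, ?_, ?_, ?_⟩
  · intro k hk
    refine ⟨?_, ?_, fun q hq => degree_ge k hk q hq⟩
    · intro a V _ G hG l hl
      refine (gcol_le_pow G k k l le_rfl).trans ?_
      rw [← mul_pow]
      exact Nat.pow_le_pow_left (hG l hl) k
    · intro l hkl
      obtain ⟨V, iV, G, hG1, hG2⟩ := lower k l hk hkl
      refine ⟨V, iV, G, ?_, ?_⟩
      · intro m hm
        refine (hG1 m hm).trans ?_
        have h1 : m * min m k ≤ m * k := Nat.mul_le_mul_left m (min_le_right _ _)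
        nlinarith
      · have h2 : (((l / k : ℕ) : ℝ)) ^ k ≤ (gcol k l G : ℝ) := by exact_mod_cast hG2 k le_rfl
        refine le_trans ?_ h2
        rw [← div_pow]
        exact pow_le_pow_left₀ (by positivity) (half_le_div hk hkl) k
  · intro k g δ hδ hk1 hk2 hg
    exact ⟨necessary k g δ hδ hk1 hk2 hg, fun ⟨c, hc⟩ => sufficient k g hg c hc⟩
  · intro k g hk hg
    exact ⟨fun ⟨c, hc⟩ => sufficient k g hg c hc, necessary' k g hk⟩
  · intro k hk
    exact ⟨fun h => bounded_of_propertyP k (fun l hl => (hk l hl).2) h,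
      fun ⟨K, hK⟩ => propertyP_of_bounded k K hK⟩

end Pool.Agent.Results.MP_7edec4_co.GrowthScale
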